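import Pool.Agent.TH703.HU.Stm
import Pool.Agent.TH959.MI.Low
import Pool.Agent.TH73.MI.Basic

/-!
# Project HU: `x`-fields on the body bound the weighted perimeter of the base (A3)
-/

set_option autoImplicit false

open MeasureTheory Set Metric Filter Topology
open scoped ENNReal Real

noncomputable section

namespace Pool.Agent.TH554.HU

open Pool.Agent.TH304.MI Pool.Agent.TH703.HU Pool.Agent.TH959.MI

/-! ### Differentiation under the integral -/

section marg

variable {b : ℕ} {E : Type*} [NormedAddCommGroup E] [NormedSpace ℝ E]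
  {F : ℂ × (Fin b → ℝ) → E}

/-- the `x`-derivative -/
def G2 (F : ℂ × (Fin b → ℝ) → E) (q : ℂ × (Fin b → ℝ)) : ℂ →L[ℝ] E :=
  (fderiv ℝ F q).comp (ContinuousLinearMap.inl ℝ ℂ (Fin b → ℝ))

theorem continuous_G2 (hF : ContDiff ℝ 1 F) : Continuous (G2 F) :=
  (hF.continuous_fderiv (by norm_num)).clm_comp continuous_const

theorem hcs_G2 (hc : HasCompactSupport F) : HasCompactSupport (G2 F) := by
  have := (hc.fderiv ℝ).comp_left (g := fun L : (ℂ × (Fin b → ℝ)) →L[ℝ] E =>
    L.comp (ContinuousLinearMap.inl ℝ ℂ (Fin b → ℝ))) (by simp)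
  exact this

theorem hasFDerivAt_marg' (hF : ContDiff ℝ 1 F) (hc : HasCompactSupport F) (x : ℂ) :
    HasFDerivAt (fun x => ∫ y, F (x, y)) (∫ y, G2 F (x, y)) x := by
  obtain ⟨M, hM⟩ := (continuous_G2 hF).bounded_above_of_compact_support (hcs_G2 hc)
  have hK : IsCompact (Prod.snd '' tsupport (G2 F)) :=
    (hcs_G2 hc).isCompact.image continuous_snd
  refine hasFDerivAt_integral_of_dominated_of_fderiv_le (F := fun x y => F (x, y))
    (F' := fun x y => G2 F (x, y)) (s := univ)
    (bound := (Prod.snd '' tsupport (G2 F)).indicator fun _ => M) univ_mem ?_ ?_ ?_ ?_ ?_ ?_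
  · exact Eventually.of_forall fun x =>
      (hF.continuous.comp (Continuous.prodMk_right x)).aestronglyMeasurable
  · exact (hF.continuous.comp (Continuous.prodMk_right x)).integrable_of_hasCompactSupport
      (slice_hcs hc x)
  · exact ((continuous_G2 hF).comp (Continuous.prodMk_right x)).aestronglyMeasurable
  · refine ae_of_all _ fun y x _ => ?_
    by_cases hy : y ∈ Prod.snd '' tsupport (G2 F)
    · rw [indicator_of_mem hy]
      exact hM _
    · rw [indicator_of_notMem hy]
      have : G2 F (x, y) = 0 := by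
        by_contra h
        exact hy ⟨(x, y), subset_tsupport _ h, rfl⟩
      rw [this, norm_zero]
  · exact (integrable_indicator_iff hK.measurableSet).2 (integrableOn_const hK.measure_lt_top.ne)
  · refine ae_of_all _ fun y x _ => ?_
    exact (hF.differentiable (by norm_num) _).hasFDerivAt.comp x (hasFDerivAt_prodMk_left x y)

theorem continuous_marg {G : ℂ × (Fin b → ℝ) → E} (hG : Continuous G)
    (hc : HasCompactSupport G) : Continuous (fun x => ∫ y, G (x, y)) := by
  obtain ⟨M, hM⟩ := hG.bounded_above_of_compact_support hc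
  have hK : IsCompact (Prod.snd '' tsupport G) := hc.isCompact.image continuous_snd
  refine continuous_of_dominated (F := fun x y => G (x, y))
    (bound := (Prod.snd '' tsupport G).indicator fun _ => M) ?_ ?_ ?_ ?_
  · exact fun x => (hG.comp (Continuous.prodMk_right x)).aestronglyMeasurable
  · refine fun x => ae_of_all _ fun y => ?_
    by_cases hy : y ∈ Prod.snd '' tsupport G
    · rw [indicator_of_mem hy]
      exact hM _
    · rw [indicator_of_notMem hy]
      have : G (x, y) = 0 := by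
        by_contra h
        exact hy ⟨(x, y), subset_tsupport _ h, rfl⟩
      rw [this, norm_zero]
  · exact (integrable_indicator_iff hK.measurableSet).2 (integrableOn_const hK.measure_lt_top.ne)
  · exact ae_of_all _ fun y => hG.comp (Continuous.prodMk_left y)

theorem contDiff_marg (hF : ContDiff ℝ 1 F) (hc : HasCompactSupport F) :
    ContDiff ℝ 1 (fun x => ∫ y, F (x, y)) := by
  rw [contDiff_one_iff_fderiv]
  refine ⟨fun x => (hasFDerivAt_marg' hF hc x).differentiableAt, ?_⟩
  have : fderiv ℝ (fun x => ∫ y, F (x, y)) = fun x => ∫ y, G2 F (x, y) :=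
    funext fun x => (hasFDerivAt_marg' hF hc x).fderiv
  rw [this]
  exact continuous_marg (continuous_G2 hF) (hcs_G2 hc)

end marg

/-- the divergence over a cylindrical set -/
theorem integral_cylO {b : ℕ} {Ω : Set (PP b)} {F : ℂ × (Fin b → ℝ) → ℂ} (hF : ContDiff ℝ 1 F)
    (hc : HasCompactSupport F) (hs : tsupport (fun p => J b (F (T b p))) ⊆ Ω) {A : Set ℂ}
    (hA : MeasurableSet A) :
    ∫ p in cylO Ω A, dv (fun p => J b (F (T b p))) p =
      ∫ x in A, Lam (fderiv ℝ (fun x => ∫ y, F (x, y)) x) := by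
  obtain ⟨e, he, hm⟩ := Pool.Agent.TH73.MI.t_fub b
  have hset : MeasurableSet (e ⁻¹' (A ×ˢ (univ : Set (Fin b → ℝ)))) :=
    e.measurable (hA.prod MeasurableSet.univ)
  have h1 : ∫ p in cylO Ω A, dv (fun p => J b (F (T b p))) p =
      ∫ p in e ⁻¹' (A ×ˢ (univ : Set (Fin b → ℝ))), dv (fun p => J b (F (T b p))) p := by
    refine (setIntegral_eq_of_subset_of_forall_sdiff_eq_zero hset ?_ ?_).symm
    · rintro p ⟨_, hp⟩
      rw [mem_preimage, he]
      exact ⟨hp, mem_univ _⟩
    · rintro p ⟨h2, h3⟩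
      rw [mem_preimage, he] at h2
      have h4 : p ∉ Ω := fun h => h3 ⟨h, h2.1⟩
      have h5 : p ∉ tsupport (fun p => J b (F (T b p))) := fun h => h4 (hs h)
      have h6 : fderiv ℝ (fun p => J b (F (T b p))) p = 0 := by
        by_contra h
        exact h5 (support_fderiv_subset ℝ h)
      rw [dv, h6]
      simp
  have h2 : ∀ p, dv (fun p => J b (F (T b p))) p = (fun q => Lam (G1 F q)) (e p) := by
    intro p
    rw [dv_eq (hF.differentiable (by norm_num)), he, T_apply]
  simp_rw [h1, h2]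
  rw [hm.setIntegral_preimage_emb e.measurableEmbedding (fun q => Lam (G1 F q)),
    Measure.volume_eq_prod, setIntegral_prod]
  · refine setIntegral_congr_fun hA fun x _ => ?_
    rw [Measure.restrict_univ, integral_Lam hF hc]
  · refine Integrable.integrableOn ?_
    rw [← Measure.volume_eq_prod]
    refine Continuous.integrable_of_hasCompactSupport (Lam.continuous.comp (continuous_G1 hF)) ?_
    exact (hcs_G1 hc).comp_left (map_zero _)

/-! ### The body in split coordinates -/

/-- the widths -/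
def wd (m : ℕ) (s : ℝ) (i : Fin (2 * m)) : ℝ := if (i : ℕ) < m then 1 / 2 + s else 1 / 2 - s

/-- the body in split coordinates -/
def UU (m : ℕ) : Set (ℂ × (Fin (2 * m + 1) → ℝ)) :=
  {q | |q.1.re| < 1 / 2 + q.2 0 ∧ |q.1.im| < 1 / 2 - q.2 0 ∧
    ∀ i : Fin (2 * m), |q.2 i.succ| < wd m (q.2 0) i}

theorem mem_Bd {m : ℕ} (p : PP (2 * m + 1)) : p ∈ Bd m ↔ T (2 * m + 1) p ∈ UU m := by
  rw [T_apply]
  unfold Bd UU wd
  simp only [Set.mem_ofPred_eq]
  refine and_congr_right fun _ => and_congr_right fun _ => forall_congr' fun i => ?_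
  by_cases h : (i : ℕ) < m
  · rw [if_pos h, if_pos h]
  · rw [if_neg h, if_neg h]

theorem wd_cont (m : ℕ) (i : Fin (2 * m)) : Continuous fun s : ℝ => wd m s i := by
  unfold wd
  by_cases h : (i : ℕ) < m
  · simp only [if_pos h]
    fun_prop
  · simp only [if_neg h]
    fun_prop

theorem isOpen_UU (m : ℕ) : IsOpen (UU m) := by
  have h : UU m = {q | |q.1.re| < 1 / 2 + q.2 0} ∩ ({q | |q.1.im| < 1 / 2 - q.2 0} ∩
      ⋂ i : Fin (2 * m), {q | |q.2 i.succ| < wd m (q.2 0) i}) := by
    ext q
    rw [mem_inter_iff, mem_inter_iff, mem_iInter]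
    rfl
  rw [h]
  have c0 : Continuous fun q : ℂ × (Fin (2 * m + 1) → ℝ) => q.2 0 := by fun_prop
  refine (isOpen_lt ?_ ?_).inter ((isOpen_lt ?_ ?_).inter
    (isOpen_iInter_of_finite fun i => isOpen_lt ?_ ((wd_cont m i).comp c0)))
  · exact (Complex.continuous_re.comp continuous_fst).abs
  · fun_prop
  · exact (Complex.continuous_im.comp continuous_fst).abs
  · fun_prop
  · exact ((continuous_apply i.succ).comp continuous_snd).abs

theorem UU_sub (m : ℕ) : UU m ⊆ closedBall (0 : ℂ) 2 ×ˢ closedBall (0 : Fin (2 * m + 1) → ℝ) 1 := by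
  rintro q ⟨h1, h2, h3⟩
  have a1 := abs_nonneg q.1.re
  have a2 := abs_nonneg q.1.im
  constructor
  · rw [mem_closedBall_zero_iff]
    have := Complex.norm_le_abs_re_add_abs_im q.1
    linarith
  · rw [mem_closedBall_zero_iff, pi_norm_le_iff_of_nonneg zero_le_one]
    intro i
    rw [Real.norm_eq_abs]
    refine Fin.cases ?_ (fun j => ?_) i
    · exact abs_le.2 ⟨by linarith, by linarith⟩
    · refine (h3 j).le.trans ?_
      unfold wd
      split_ifs <;> linarith

/-! ### The volume of the fibres -/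

/-- the fibre over `x` -/
def fib (m : ℕ) (x : ℂ) : Set (Fin (2 * m + 1) → ℝ) := {y | (x, y) ∈ UU m}

theorem prod_wd (m : ℕ) (s : ℝ) : ∏ i : Fin (2 * m), (2 * wd m s i) = (1 - 4 * s ^ 2) ^ m := by
  have h1 : ∀ i : Fin (2 * m), 2 * wd m s i = if (i : ℕ) < m then 1 + 2 * s else 1 - 2 * s := by
    intro i
    unfold wd
    split_ifs <;> ring
  simp_rw [h1]
  have h2 : ∀ n : ℕ, ∏ i ∈ Finset.range (2 * n), (if i < n then 1 + 2 * s else 1 - 2 * s) =
      (1 - 4 * s ^ 2) ^ n := by
    intro n
    rw [two_mul, Finset.prod_range_add, Finset.prod_congr rfl (g := fun _ => 1 + 2 * s),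
      Finset.prod_congr rfl (s₁ := Finset.range n)
        (f := fun x => if n + x < n then 1 + 2 * s else 1 - 2 * s) (g := fun _ => 1 - 2 * s),
      Finset.prod_const, Finset.prod_const, Finset.card_range, ← mul_pow]
    · congr 1
      ring
    · intro i _
      rw [if_neg (by omega)]
    · intro i hi
      rw [if_pos (Finset.mem_range.1 hi)]
  rw [← h2 m, ← Fin.prod_univ_eq_prod_range (fun i => if i < m then 1 + 2 * s else 1 - 2 * s)
    (2 * m)]

theorem wd_pos {m : ℕ} {s : ℝ} (h1 : -(1 / 2) < s) (h2 : s < 1 / 2) (i : Fin (2 * m)) :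
    0 < wd m s i := by
  unfold wd
  split_ifs <;> linarith

theorem vol_fib (m : ℕ) (x : ℂ) : volume (fib m x) = ENNReal.ofReal
    (∫ u in Ioo (|x.re| - 1 / 2) (1 / 2 - |x.im|), (1 - 4 * u ^ 2) ^ m) := by
  have a1 := abs_nonneg x.re
  have a2 := abs_nonneg x.im
  have hopen : IsOpen (fib m x) := (isOpen_UU m).preimage (Continuous.prodMk_right x)
  have hmp := (volume_preserving_piFinSuccAbove (fun _ : Fin (2 * m + 1) => ℝ) 0).symm
  rw [← hmp.measure_preimage hopen.measurableSet.nullMeasurableSet, Measure.volume_eq_prod,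
    Measure.prod_apply (hmp.measurable hopen.measurableSet)]
  have h1 : ∀ s : ℝ, volume (Prod.mk s ⁻¹' ((MeasurableEquiv.piFinSuccAbove
      (fun _ : Fin (2 * m + 1) => ℝ) 0).symm ⁻¹' fib m x)) =
      (Ioo (|x.re| - 1 / 2) (1 / 2 - |x.im|)).indicator
        (fun s => ENNReal.ofReal ((1 - 4 * s ^ 2) ^ m)) s := by
    intro s
    by_cases hs : s ∈ Ioo (|x.re| - 1 / 2) (1 / 2 - |x.im|)
    · rw [indicator_of_mem hs]
      have h2 : Prod.mk s ⁻¹' ((MeasurableEquiv.piFinSuccAbove
          (fun _ : Fin (2 * m + 1) => ℝ) 0).symm ⁻¹' fib m x) =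
          Set.pi univ fun i => Ioo (-wd m s i) (wd m s i) := by
        ext y
        rw [mem_preimage, mem_preimage, mem_univ_pi]
        constructor
        · rintro ⟨_, _, h3⟩ i
          exact abs_lt.1 (h3 i)
        · intro h3
          refine ⟨?_, ?_, fun i => ?_⟩
          · change |x.re| < 1 / 2 + s
            linarith [hs.1]
          · change |x.im| < 1 / 2 - s
            linarith [hs.2]
          · exact abs_lt.2 (h3 i)
      rw [h2, Real.volume_pi_Ioo, ← ENNReal.ofReal_prod_of_nonneg]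
      · congr 1
        rw [← prod_wd]
        refine Finset.prod_congr rfl fun i _ => ?_
        ring
      · intro i _
        have := wd_pos (m := m) (s := s) (by linarith [hs.1]) (by linarith [hs.2]) i
        linarith
    · rw [indicator_of_notMem hs]
      have h2 : Prod.mk s ⁻¹' ((MeasurableEquiv.piFinSuccAbove
          (fun _ : Fin (2 * m + 1) => ℝ) 0).symm ⁻¹' fib m x) = ∅ := by
        ext y
        rw [mem_preimage, mem_preimage]
        refine ⟨fun h => absurd ?_ hs, fun h => absurd h (notMem_empty _)⟩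
        obtain ⟨h3, h4, _⟩ := h
        have h5 : |x.re| < 1 / 2 + s := h3
        have h6 : |x.im| < 1 / 2 - s := h4
        exact ⟨by linarith, by linarith⟩
      rw [h2, measure_empty]
  rw [lintegral_congr h1, lintegral_indicator measurableSet_Ioo,
    ← ofReal_integral_eq_lintegral_ofReal]
  · have hc : Continuous fun u : ℝ => (1 - 4 * u ^ 2) ^ m := by fun_prop
    exact (hc.integrableOn_Icc (a := |x.re| - 1 / 2) (b := 1 / 2 - |x.im|)).mono_set
      Ioo_subset_Icc_self
  · filter_upwards [ae_restrict_mem measurableSet_Ioo] with u hu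
    have h3 : -(1 / 2) < u := by linarith [hu.1]
    have h4 : u < 1 / 2 := by linarith [hu.2]
    have : 0 ≤ 1 - 4 * u ^ 2 := by nlinarith
    positivity

theorem NN_pos (m : ℕ) : 0 < NN m := by
  unfold NN
  refine intervalIntegral.intervalIntegral_pos_of_pos_on ?_ ?_ (by norm_num)
  · apply Continuous.intervalIntegrable
    fun_prop
  · intro u hu
    have : 0 < 1 - 4 * u ^ 2 := by nlinarith [hu.1, hu.2]
    positivity

theorem gg_eq (m : ℕ) (x : ℂ) :
    ∫ u in Ioo (|x.re| - 1 / 2) (1 / 2 - |x.im|), (1 - 4 * u ^ 2) ^ m = NN m * wt m x := by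
  unfold wt
  rw [mul_div_cancel₀ _ (NN_pos m).ne']
  rcases le_or_gt (|x.re| - 1 / 2) (1 / 2 - |x.im|) with h | h
  · rw [max_eq_right h, intervalIntegral.integral_of_le h, integral_Ioc_eq_integral_Ioo]
  · rw [max_eq_left h.le, intervalIntegral.integral_same, Ioo_eq_empty (not_lt.2 h.le)]
    simp

theorem wt_cont (m : ℕ) : Continuous (wt m) := by
  have hc : Continuous fun u : ℝ => (1 - 4 * u ^ 2) ^ m := by fun_prop
  have hi : ∀ a b : ℝ, IntervalIntegrable (fun u : ℝ => (1 - 4 * u ^ 2) ^ m) volume a b :=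
    fun a b => hc.intervalIntegrable a b
  have hP : Continuous fun t : ℝ => ∫ u in (0 : ℝ)..t, (1 - 4 * u ^ 2) ^ m :=
    intervalIntegral.continuous_primitive hi 0
  have h1 : wt m = fun x : ℂ => ((∫ u in (0 : ℝ)..(max (|x.re| - 1 / 2) (1 / 2 - |x.im|)),
      (1 - 4 * u ^ 2) ^ m) - ∫ u in (0 : ℝ)..(|x.re| - 1 / 2), (1 - 4 * u ^ 2) ^ m) / NN m := by
    funext x
    unfold wt
    rw [intervalIntegral.integral_interval_sub_left (hi _ _) (hi _ _)]
  have hre : Continuous fun x : ℂ => |x.re| - 1 / 2 :=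
    (Complex.continuous_re.abs).sub continuous_const
  have him : Continuous fun x : ℂ => 1 / 2 - |x.im| :=
    continuous_const.sub (Complex.continuous_im.abs)
  rw [h1]
  exact ((hP.comp (hre.max him)).sub (hP.comp hre)).div_const _

/-! ### Cut-off functions -/

theorem exists_chi (m : ℕ) : ∃ χ : ℕ → ℂ × (Fin (2 * m + 1) → ℝ) → ℝ,
    (∀ j, ContDiff ℝ 1 (χ j)) ∧ (∀ j, HasCompactSupport (χ j)) ∧ (∀ j, tsupport (χ j) ⊆ UU m) ∧
    (∀ j q, 0 ≤ χ j q) ∧ (∀ j q, χ j q ≤ 1) ∧ (∀ q, Monotone fun j => χ j q) ∧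
    ∀ q, Tendsto (fun j => χ j q) atTop (𝓝 ((UU m).indicator (fun _ => (1 : ℝ)) q)) := by
  obtain ⟨f, hf1, hf2, hf3⟩ := (isOpen_UU m).exists_contDiff_support_eq (n := 1)
  have hf0 : ∀ q, 0 ≤ f q := fun q => (hf3 (mem_range_self q)).1
  have hfc : Continuous f := hf2.continuous
  set χ : ℕ → ℂ × (Fin (2 * m + 1) → ℝ) → ℝ := fun j q =>
    Real.smoothTransition ((j : ℝ) * f q - 1) with hχ
  have hsup : ∀ j q, χ j q ≠ 0 → 1 ≤ (j : ℝ) * f q := by
    intro j q h
    by_contra hc
    push Not at hc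
    exact h (Real.smoothTransition.zero_of_nonpos (by linarith))
  have hcl : ∀ j : ℕ, IsClosed {q | 1 ≤ (j : ℝ) * f q} := fun j =>
    isClosed_le continuous_const (continuous_const.mul hfc)
  have hts : ∀ j, tsupport (χ j) ⊆ {q | 1 ≤ (j : ℝ) * f q} := fun j =>
    closure_minimal (hsup j) (hcl j)
  have hU : ∀ (j : ℕ) q, 1 ≤ (j : ℝ) * f q → q ∈ UU m := by
    intro j q h
    rw [← hf1, Function.mem_support]
    intro h0
    rw [h0, mul_zero] at h
    linarith
  have htU : ∀ j, tsupport (χ j) ⊆ UU m := fun j q hq => hU j q (hts j hq)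
  have hK : IsCompact (closedBall (0 : ℂ) 2 ×ˢ closedBall (0 : Fin (2 * m + 1) → ℝ) 1) :=
    (isCompact_closedBall _ _).prod (isCompact_closedBall _ _)
  refine ⟨χ, fun j => ?_, fun j => ?_, htU, fun j q => Real.smoothTransition.nonneg _,
    fun j q => Real.smoothTransition.le_one _, fun q => ?_, fun q => ?_⟩
  · exact Real.smoothTransition.contDiff.comp ((contDiff_const.mul hf2).sub contDiff_const)
  · exact hK.of_isClosed_subset (isClosed_tsupport _) ((htU j).trans (UU_sub m))
  · intro i j hij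
    apply Real.smoothTransition.monotone
    have h1 : (i : ℝ) ≤ j := by exact_mod_cast hij
    have := mul_le_mul_of_nonneg_right h1 (hf0 q)
    linarith
  · by_cases hq : q ∈ UU m
    · rw [indicator_of_mem hq]
      have hpos : 0 < f q := by
        have : f q ≠ 0 := by
          rw [← hf1] at hq
          exact hq
        exact lt_of_le_of_ne (hf0 q) this.symm
      have h1 : Tendsto (fun j : ℕ => (j : ℝ) * f q - 1) atTop atTop :=
        tendsto_atTop_add_const_right _ _ (tendsto_natCast_atTop_atTop.atTop_mul_const hpos)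
      have h2 : (fun j => χ j q) =ᶠ[atTop] fun _ => 1 := by
        filter_upwards [h1.eventually_ge_atTop 1] with j hj
        exact Real.smoothTransition.one_of_one_le hj
      exact tendsto_const_nhds.congr' h2.symm
    · rw [indicator_of_notMem hq]
      have h0 : f q = 0 := by
        rw [← hf1, Function.mem_support, not_not] at hq
        exact hq
      have h1 : (fun j => χ j q) = fun _ => 0 := by
        funext j
        simp only [hχ]
        rw [h0, mul_zero]
        exact Real.smoothTransition.zero_of_nonpos (by norm_num)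
      rw [h1]
      exact tendsto_const_nhds

theorem exists_cut {m : ℕ} {K : Set ℂ} (hK : IsCompact K) (hK0 : ∀ x ∈ K, 0 < wt m x) {δ : ℝ}
    (hδ : 0 < δ) : ∃ χ : ℂ × (Fin (2 * m + 1) → ℝ) → ℝ, ContDiff ℝ 1 χ ∧ HasCompactSupport χ ∧
      tsupport χ ⊆ UU m ∧ (∀ q, 0 ≤ χ q) ∧ (∀ q, χ q ≤ 1) ∧
      ∀ x ∈ K, NN m * wt m x / (1 + δ) ≤ ∫ y, χ (x, y) := by
  obtain ⟨χ, h1, h2, h3, h4, h5, h6, h7⟩ := exists_chi m
  have hcont : ∀ j, Continuous fun x => ∫ y, χ j (x, y) := fun j =>
    continuous_marg (h1 j).continuous (h2 j)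
  have hint : ∀ j x, Integrable fun y => χ j (x, y) := fun j x =>
    ((h1 j).continuous.comp (Continuous.prodMk_right x)).integrable_of_hasCompactSupport
      (slice_hcs (h2 j) x)
  have hlim : ∀ x, Tendsto (fun j => ∫ y, χ j (x, y)) atTop (𝓝 (NN m * wt m x)) := by
    intro x
    have hfm : MeasurableSet (fib m x) :=
      ((isOpen_UU m).preimage (Continuous.prodMk_right x)).measurableSet
    have hvol := vol_fib m x
    rw [gg_eq] at hvol
    have hg0 : 0 ≤ NN m * wt m x := by
      rw [← gg_eq]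
      refine setIntegral_nonneg measurableSet_Ioo fun u hu => ?_
      have a1 := abs_nonneg x.re
      have a2 := abs_nonneg x.im
      have b1 : -(1 / 2) < u := by linarith [hu.1]
      have b2 : u < 1 / 2 := by linarith [hu.2]
      have : 0 ≤ 1 - 4 * u ^ 2 := by nlinarith
      positivity
    have hlim2 : ∫ y, (fib m x).indicator (fun _ => (1 : ℝ)) y = NN m * wt m x := by
      rw [integral_indicator hfm, setIntegral_const, smul_eq_mul, mul_one, Measure.real, hvol,
        ENNReal.toReal_ofReal hg0]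
    rw [← hlim2]
    refine tendsto_integral_of_dominated_convergence ((fib m x).indicator fun _ => (1 : ℝ))
      (fun j => (hint j x).aestronglyMeasurable) ?_ ?_ ?_
    · rw [integrable_indicator_iff hfm]
      refine integrableOn_const ?_
      rw [hvol]
      exact ENNReal.ofReal_ne_top
    · intro j
      refine Eventually.of_forall fun y => ?_
      rw [Real.norm_of_nonneg (h4 j _)]
      by_cases hy : y ∈ fib m x
      · rw [indicator_of_mem hy]
        exact h5 j _
      · rw [indicator_of_notMem hy]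
        have : χ j (x, y) = 0 := by
          by_contra h
          exact hy (h3 j (subset_tsupport _ h))
        rw [this]
    · refine Eventually.of_forall fun y => ?_
      exact h7 (x, y)
  have hdini : TendstoUniformlyOn (fun j x => (∫ y, χ j (x, y)) / (NN m * wt m x)) (fun _ => 1)
      atTop K := by
    refine Monotone.tendstoUniformlyOn_of_forall_tendsto hK (fun j => ?_) (fun x hx => ?_)
      continuousOn_const (fun x hx => ?_)
    · refine (hcont j).continuousOn.div (continuous_const.mul (wt_cont m)).continuousOn ?_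
      intro x hx
      exact (mul_pos (NN_pos m) (hK0 x hx)).ne'
    · intro i j hij
      refine div_le_div_of_nonneg_right ?_ (mul_pos (NN_pos m) (hK0 x hx)).le
      exact integral_mono (hint i x) (hint j x) fun y => h6 (x, y) hij
    · have := (hlim x).div_const (NN m * wt m x)
      rwa [div_self (mul_pos (NN_pos m) (hK0 x hx)).ne'] at this
  rw [Metric.tendstoUniformlyOn_iff] at hdini
  obtain ⟨j, hj⟩ := (hdini (δ / (1 + δ)) (by positivity)).exists
  refine ⟨χ j, h1 j, h2 j, h3 j, h4 j, h5 j, fun x hx => ?_⟩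
  have h8 := hj x hx
  have hg := mul_pos (NN_pos m) (hK0 x hx)
  rw [Real.dist_eq, abs_lt] at h8
  have h9 : 1 / (1 + δ) ≤ (∫ y, χ j (x, y)) / (NN m * wt m x) := by
    have : 1 / (1 + δ) = 1 - δ / (1 + δ) := by
      field_simp
      ring
    linarith [h8.2]
  rw [le_div_iff₀ hg] at h9
  calc NN m * wt m x / (1 + δ) = 1 / (1 + δ) * (NN m * wt m x) := by ring
    _ ≤ _ := h9

/-! ### The field -/

section field

variable {m : ℕ} {χ : ℂ × (Fin (2 * m + 1) → ℝ) → ℝ} {Y : ℂ → ℂ} {δ : ℝ}

/-- the mass of the fibres -/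
def qq (χ : ℂ × (Fin (2 * m + 1) → ℝ) → ℝ) (x : ℂ) : ℝ := ∫ y, χ (x, y)

/-- the field -/
def FF (m : ℕ) (χ : ℂ × (Fin (2 * m + 1) → ℝ) → ℝ) (δ : ℝ) (Y : ℂ → ℂ)
    (q : ℂ × (Fin (2 * m + 1) → ℝ)) : ℂ := (χ q * (NN m / ((1 + δ) * qq χ q.1))) • Y q.1

theorem tsupport_FF1 : tsupport (FF m χ δ Y) ⊆ {q | q.1 ∈ tsupport Y} := by
  refine closure_minimal ?_ ((isClosed_tsupport Y).preimage continuous_fst)
  intro q hq
  refine subset_tsupport _ fun h => hq ?_
  unfold FF
  rw [h, smul_zero]

theorem tsupport_FF2 : tsupport (FF m χ δ Y) ⊆ tsupport χ := by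
  refine closure_mono ?_
  intro q hq h
  apply hq
  unfold FF
  rw [h, zero_mul, zero_smul]

theorem qq_pos (hδ : 0 < δ) (hY : TW (wt m) Y)
    (hq : ∀ x ∈ tsupport Y, NN m * wt m x / (1 + δ) ≤ ∫ y, χ (x, y)) {x : ℂ}
    (hx : x ∈ tsupport Y) : 0 < qq χ x := by
  refine lt_of_lt_of_le ?_ (hq x hx)
  have h1 : 0 < wt m x := hY.sub hx
  have h2 := NN_pos m
  positivity

theorem contDiff_FF (h1 : ContDiff ℝ 1 χ) (h2 : HasCompactSupport χ) (hδ : 0 < δ)
    (hY : TW (wt m) Y)
    (hq : ∀ x ∈ tsupport Y, NN m * wt m x / (1 + δ) ≤ ∫ y, χ (x, y)) :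
    ContDiff ℝ 1 (FF m χ δ Y) := by
  rw [contDiff_iff_contDiffAt]
  intro q
  by_cases h : q ∈ tsupport (FF m χ δ Y)
  · have h3 := tsupport_FF1 h
    have h4 := qq_pos hδ hY hq h3
    have h5 : ContDiff ℝ 1 (qq χ) := contDiff_marg h1 h2
    have h6 : ContDiffAt ℝ 1 (fun q : ℂ × (Fin (2 * m + 1) → ℝ) => (1 + δ) * qq χ q.1) q :=
      contDiffAt_const.mul (h5.comp contDiff_fst).contDiffAt
    have h7 : (1 + δ) * qq χ q.1 ≠ 0 := by positivity
    unfold FF
    exact (h1.contDiffAt.mul (contDiffAt_const.div h6 h7)).smul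
      (hY.cd.comp contDiff_fst).contDiffAt
  · rw [notMem_tsupport_iff_eventuallyEq] at h
    exact (contDiffAt_const (c := (0 : ℂ))).congr_of_eventuallyEq h

theorem norm_FF_le (h4 : ∀ q, 0 ≤ χ q) (h5 : ∀ q, χ q ≤ 1) (hδ : 0 < δ) (hY : TW (wt m) Y)
    (hq : ∀ x ∈ tsupport Y, NN m * wt m x / (1 + δ) ≤ ∫ y, χ (x, y))
    (q : ℂ × (Fin (2 * m + 1) → ℝ)) : ‖FF m χ δ Y q‖ ≤ 1 := by
  by_cases hz : Y q.1 = 0
  · unfold FF
    rw [hz, smul_zero, norm_zero]
    exact zero_le_one
  · have h1 : q.1 ∈ tsupport Y := subset_tsupport _ hz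
    have h2 := qq_pos hδ hY hq h1
    have h3 := hq _ h1
    have h6 := NN_pos m
    have h7 : 0 ≤ NN m / ((1 + δ) * qq χ q.1) := by positivity
    unfold FF
    rw [norm_smul, Real.norm_of_nonneg (mul_nonneg (h4 q) h7)]
    calc χ q * (NN m / ((1 + δ) * qq χ q.1)) * ‖Y q.1‖
        ≤ 1 * (NN m / ((1 + δ) * qq χ q.1)) * wt m q.1 := by
          refine mul_le_mul (mul_le_mul_of_nonneg_right (h5 q) h7) (hY.le _) (norm_nonneg _) ?_
          rw [one_mul]
          exact h7
      _ = (NN m * wt m q.1 / (1 + δ)) / qq χ q.1 := by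
          field_simp
      _ ≤ 1 := by
          rw [div_le_one h2]
          exact h3

theorem integral_FF (hδ : 0 < δ) (hY : TW (wt m) Y)
    (hq : ∀ x ∈ tsupport Y, NN m * wt m x / (1 + δ) ≤ ∫ y, χ (x, y)) (x : ℂ) :
    ∫ y, FF m χ δ Y (x, y) = (NN m / (1 + δ)) • Y x := by
  by_cases hz : Y x = 0
  · simp [FF, hz]
  · have h1 : x ∈ tsupport Y := subset_tsupport _ hz
    have h2 := qq_pos hδ hY hq h1
    simp only [FF]
    rw [integral_smul_const, integral_mul_const]
    congr 1
    change qq χ x * (NN m / ((1 + δ) * qq χ x)) = _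
    field_simp

end field

/-- **A3** -/
theorem a3' : S_A3 := by
  intro m A hA C h Y hY
  have key : ∀ δ : ℝ, 0 < δ → ∫ x in A, dv2 Y x ≤ (1 + δ) * C := by
    intro δ hδ
    obtain ⟨χ, h1, h2, h3, h4, h5, h6⟩ := exists_cut (m := m) hY.cs.isCompact
      (fun x hx => hY.sub hx) hδ
    have hF := contDiff_FF h1 h2 hδ hY h6
    have hc : HasCompactSupport (FF m χ δ Y) :=
      h2.isCompact.of_isClosed_subset (isClosed_tsupport _) tsupport_FF2
    have hinj : Function.Injective (T (2 * m + 1)) := by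
      obtain ⟨e, he, -⟩ := Pool.Agent.TH73.MI.t_fub (2 * m + 1)
      intro p q hpq
      have : e p = e q := by rw [he, he]; exact hpq
      exact e.injective this
    have hemb : IsClosedEmbedding (T (2 * m + 1)) := by
      refine (LinearMap.isClosedEmbedding_of_injective (f := (T (2 * m + 1)).toLinearMap) ?_)
      rw [LinearMap.ker_eq_bot]
      exact hinj
    have hcomp : HasCompactSupport (fun p => FF m χ δ Y (T (2 * m + 1) p)) :=
      hc.comp_isClosedEmbedding (g := T (2 * m + 1)) hemb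
    have hs : tsupport (fun p => J (2 * m + 1) (FF m χ δ Y (T (2 * m + 1) p))) ⊆ Bd m := by
      have hcl : IsClosed {p : PP (2 * m + 1) | T (2 * m + 1) p ∈ tsupport χ} :=
        (isClosed_tsupport χ).preimage (T (2 * m + 1)).continuous
      refine (closure_minimal ?_ hcl).trans ?_
      · intro p hp
        refine tsupport_FF2 (δ := δ) (Y := Y) (subset_tsupport _ fun h0 => hp ?_)
        dsimp only
        rw [h0, map_zero]
      · intro p hp
        rw [mem_Bd]
        exact h3 hp
    have h7 := h (fun p => J (2 * m + 1) (FF m χ δ Y (T (2 * m + 1) p))) ⟨?_, ?_, hs, ?_⟩ ?_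
    · rw [integral_cylO hF hc hs hA] at h7
      have h8 : (fun x => ∫ y, FF m χ δ Y (x, y)) = fun x => (NN m / (1 + δ)) • Y x :=
        funext fun x => integral_FF hδ hY h6 x
      rw [h8] at h7
      simp_rw [Lam_fderiv hY.cd] at h7
      rw [integral_const_mul] at h7
      have h9 := NN_pos m
      have h10 : NN m * (∫ x in A, dv2 Y x) ≤ NN m * ((1 + δ) * C) := by
        have h11 := mul_le_mul_of_nonneg_left h7 (by positivity : (0 : ℝ) ≤ 1 + δ)
        calc NN m * (∫ x in A, dv2 Y x) = (1 + δ) * (NN m / (1 + δ) * ∫ x in A, dv2 Y x) := by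
              field_simp
          _ ≤ (1 + δ) * (NN m * C) := h11
          _ = _ := by ring
      exact le_of_mul_le_mul_left h10 h9
    · exact (J (2 * m + 1)).contDiff.comp (hF.comp (T (2 * m + 1)).contDiff)
    · exact hcomp.comp_left (g := J (2 * m + 1)) (map_zero _)
    · intro p
      rw [sc_one, norm_J]
      exact norm_FF_le h4 h5 hδ hY h6 _
    · intro p
      funext i
      exact J_succ _ i
  have hlim : Tendsto (fun n : ℕ => (1 + 1 / ((n : ℝ) + 1)) * C) atTop (𝓝 ((1 + 0) * C)) :=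
    (tendsto_one_div_add_atTop_nhds_zero_nat.const_add 1).mul_const C
  rw [add_zero, one_mul] at hlim
  exact ge_of_tendsto' hlim fun n => key _ (by positivity)

theorem a3 (_c0 : S_C0) (_a1 : S_A1) : S_A3 := a3'

end Pool.Agent.TH554.HU
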